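import Pool.Agent.N659.HB.Stm8

/-!
# Project SD (helper659): the transform of the uniform law inside the support (helper527)
-/

set_option autoImplicit false

namespace Pool.Agent.N527.SD.HU

open MeasureTheory Filter Pool.Agent.N659.HB
open scoped Topology ENNReal

noncomputable section

lemma int_unif {w : ℝ} (hw : 0 < w) (f : ℝ → ℂ) :
    ∫ t, f t ∂(unif w) = (1 / (2 * w) : ℝ) • ∫ t in (-w)..w, f t := by
  unfold unif
  rw [integral_smul_measure, ENNReal.toReal_ofReal (by positivity),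
    intervalIntegral.integral_of_le (by linarith), integral_Icc_eq_integral_Ioc]

lemma unif_prob {w : ℝ} (hw : 0 < w) : IsProbabilityMeasure (unif w) := by
  constructor
  unfold unif
  rw [Measure.smul_apply, Measure.restrict_apply MeasurableSet.univ, Set.univ_inter,
    Real.volume_Icc, smul_eq_mul, ← ENNReal.ofReal_mul (by positivity)]
  rw [show 1 / (2 * w) * (w - -w) = 1 by field_simp; ring]
  exact ENNReal.ofReal_one

/-- the explicit transform -/
def H (w : ℝ) (ζ : ℂ) : ℂ :=
  (Complex.log (Complex.I * (w - ζ)) - Complex.log (Complex.I * (-w - ζ))) / (2 * w)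

lemma slit_of_re {z : ℂ} (h : z.re ≠ 0) : Complex.I * z ∈ Complex.slitPlane := by
  rw [Complex.mem_slitPlane_iff]
  right
  simpa using h

lemma slit_of_im {z : ℂ} (h : z.im < 0) : Complex.I * z ∈ Complex.slitPlane := by
  rw [Complex.mem_slitPlane_iff]
  left
  simpa using h

lemma hu_eq {w : ℝ} (hw : 0 < w) {ζ : ℂ} (hζ : 0 < ζ.im) : hu w ζ = H w ζ := by
  unfold hu H
  rw [int_unif hw]
  have h1 : ∫ t in (-w)..w, 1 / ((t : ℂ) - ζ) =
      Complex.log (Complex.I * ((w : ℝ) - ζ)) - Complex.log (Complex.I * (((-w : ℝ) : ℂ) - ζ)) := by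
    apply intervalIntegral.integral_eq_sub_of_hasDerivAt
      (f := fun t : ℝ => Complex.log (Complex.I * ((t : ℂ) - ζ)))
    · intro t _
      have h2 : HasDerivAt (fun t : ℝ => Complex.I * ((t : ℂ) - ζ)) (Complex.I * 1) t :=
        (Complex.ofRealCLM.hasDerivAt.sub_const ζ).const_mul Complex.I
      have h3 := h2.clog_real (slit_of_im (by simp; exact hζ))
      have h4 : (t : ℂ) - ζ ≠ 0 := by
        intro h5
        have := congrArg Complex.im h5
        simp at this
        linarith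
      have hI := Complex.I_ne_zero
      exact h3.congr_deriv (by field_simp)
    · apply Continuous.intervalIntegrable
      refine Continuous.div continuous_const (by fun_prop) ?_
      intro t h5
      have := congrArg Complex.im h5
      simp at this
      linarith
  rw [h1, Complex.real_smul]
  push_cast
  ring

lemma H_deriv {w : ℝ} (hw : 0 < w) {ζ : ℂ} (h : |ζ.re| < w) :
    HasDerivAt (H w) (-1 / ((w - ζ) * (w + ζ))) ζ := by
  have h' := abs_lt.1 h
  have r1 : ((w : ℂ) - ζ).re ≠ 0 := by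
    simp
    intro h0
    linarith
  have r2 : (-(w : ℂ) - ζ).re ≠ 0 := by
    simp
    intro h0
    linarith
  have n1 : (w : ℂ) - ζ ≠ 0 := fun h0 => r1 (by rw [h0]; simp)
  have n2 : -(w : ℂ) - ζ ≠ 0 := fun h0 => r2 (by rw [h0]; simp)
  have n3 : (w : ℂ) + ζ ≠ 0 := fun h0 => n2 (by linear_combination -h0)
  have n4 : (w : ℂ) ≠ 0 := by exact_mod_cast hw.ne'
  have d1 : HasDerivAt (fun z : ℂ => Complex.I * ((w : ℂ) - z)) (Complex.I * (-1)) ζ :=
    ((hasDerivAt_id ζ).const_sub (w : ℂ)).const_mul Complex.I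
  have d2 : HasDerivAt (fun z : ℂ => Complex.I * (-(w : ℂ) - z)) (Complex.I * (-1)) ζ :=
    ((hasDerivAt_id ζ).const_sub (-(w : ℂ))).const_mul Complex.I
  have d3 := ((d1.clog (slit_of_re r1)).sub (d2.clog (slit_of_re r2))).div_const (2 * (w : ℂ))
  refine HasDerivAt.congr_deriv (f := H w) d3 ?_
  have hI := Complex.I_ne_zero
  have e1 : -(w : ℂ) - ζ = -(w + ζ) := by ring
  rw [e1]
  field_simp
  ring

lemma H_im {w : ℝ} (hw : 0 < w) {ζ : ℂ} (h : |ζ.re| < w) : 0 < (H w ζ).im := by
  have h' := abs_lt.1 h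
  have e : H w ζ = ((1 / (2 * w) : ℝ) : ℂ) *
      (Complex.log (Complex.I * (w - ζ)) - Complex.log (Complex.I * (-w - ζ))) := by
    unfold H
    push_cast
    ring
  rw [e, Complex.im_ofReal_mul, Complex.sub_im, Complex.log_im, Complex.log_im]
  have a1 : 0 ≤ Complex.arg (Complex.I * (w - ζ)) := by
    rw [Complex.arg_nonneg_iff]
    simp
    linarith
  have a2 : Complex.arg (Complex.I * (-w - ζ)) < 0 := by
    rw [Complex.arg_neg_iff]
    simp
    linarith
  have : 0 < 1 / (2 * w) := by positivity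
  apply mul_pos this
  linarith

lemma neg_real {w : ℝ} (hw : 0 < w) {ζ : ℂ} (h : |ζ.re| < w) (h0 : ζ.im = 0) :
    (1 / H w ζ + ζ).im < 0 := by
  have h1 := H_im hw h
  have hn : H w ζ ≠ 0 := fun h2 => by rw [h2] at h1; simp at h1
  rw [Complex.add_im, h0, add_zero, one_div, Complex.inv_im]
  have := Complex.normSq_pos.2 hn
  exact div_neg_of_neg_of_pos (by linarith) this

lemma neg_pos {w : ℝ} (hw : 0 < w) {ζ : ℂ} (h0 : 0 < ζ.im) :
    (1 / hu w ζ + ζ).im < 0 := by
  have hP := unif_prob hw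
  set y := ζ.im with hy
  set q : ℂ := ((1 / (2 * y) : ℝ) : ℂ) * Complex.I with hq
  have hne : ∀ t : ℝ, (t : ℂ) - ζ ≠ 0 := by
    intro t h5
    have := congrArg Complex.im h5
    simp at this
    linarith
  have hc : ∀ t : ℝ, ‖1 / ((t : ℂ) - ζ) - q‖ ≤ 1 / (2 * y) := by
    intro t
    have h4 := hne t
    have hy0 : (y : ℂ) ≠ 0 := by exact_mod_cast h0.ne'
    have e1 : 1 / ((t : ℂ) - ζ) - q =
        (starRingEnd ℂ) (Complex.I * ((t : ℂ) - ζ)) / (2 * y * ((t : ℂ) - ζ)) := by
      have e2 : (starRingEnd ℂ) (Complex.I * ((t : ℂ) - ζ)) =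
          2 * y - Complex.I * ((t : ℂ) - ζ) := by
        apply Complex.ext
        · simp [← hy]
          ring
        · simp
      rw [e2, hq]
      push_cast
      field_simp
    rw [e1, norm_div, RCLike.norm_conj, norm_mul, norm_mul, Complex.norm_I, one_mul, norm_mul,
      Complex.norm_real, Real.norm_of_nonneg h0.le, Complex.norm_two]
    have h5 : 0 < ‖(t : ℂ) - ζ‖ := norm_pos_iff.2 h4
    apply le_of_eq
    field_simp
  have hint : Integrable (fun t : ℝ => 1 / ((t : ℂ) - ζ)) (unif w) := by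
    refine Integrable.of_bound (C := 1 / (2 * y) + ‖q‖) ?_ (Eventually.of_forall fun t => ?_)
    · apply Continuous.aestronglyMeasurable
      exact Continuous.div continuous_const (by fun_prop) hne
    · calc ‖1 / ((t : ℂ) - ζ)‖ = ‖(1 / ((t : ℂ) - ζ) - q) + q‖ := by rw [sub_add_cancel]
        _ ≤ _ := norm_add_le _ _
        _ ≤ _ := by linarith [hc t]
  rcases ae_eq_const_or_norm_integral_lt_of_norm_le_const (μ := unif w)
    (f := fun t : ℝ => 1 / ((t : ℂ) - ζ) - q) (C := 1 / (2 * y)) (Eventually.of_forall hc) with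
    h1 | h1
  · exfalso
    obtain ⟨t0, h2⟩ := h1.exists
    have h3 : ∀ᵐ t ∂(unif w), t ≠ t0 := by
      rw [ae_iff]
      simp only [not_not]
      have : {a : ℝ | a = t0} = {t0} := rfl
      rw [this]
      unfold unif
      rw [Measure.smul_apply, measure_singleton, smul_zero]
    obtain ⟨t1, h4, h5⟩ := (h1.and h3).exists
    apply h5
    simp only [Function.const_apply] at h2 h4
    have h6 := h4.trans h2.symm
    have h7 : 1 / ((t1 : ℂ) - ζ) = 1 / ((t0 : ℂ) - ζ) := by linear_combination h6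
    rw [div_eq_div_iff (hne t1) (hne t0), one_mul, one_mul] at h7
    have h8 : (t1 : ℂ) = t0 := by linear_combination -h7
    exact_mod_cast h8
  · rw [integral_sub hint (integrable_const _), integral_const, probReal_univ, one_smul, one_mul] at h1
    change ‖hu w ζ - q‖ < _ at h1
    set m := hu w ζ with hm
    have h2 : ‖m - q‖ ^ 2 < (1 / (2 * y)) ^ 2 := by
      apply pow_lt_pow_left₀ h1 (norm_nonneg _) (by norm_num)
    rw [← Complex.normSq_eq_norm_sq, Complex.normSq_apply] at h2
    have q1 : q.re = 0 := by simp [hq]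
    have q2 : q.im = 1 / (2 * y) := by simp [hq]
    rw [Complex.sub_re, Complex.sub_im, q1, q2] at h2
    have h3 : y * (m.re * m.re + m.im * m.im) < m.im := by
      have e : y * (m.re * m.re + m.im * m.im) - m.im =
        y * (((m.re - 0) * (m.re - 0) + (m.im - 1 / (2 * y)) * (m.im - 1 / (2 * y)))
          - (1 / (2 * y)) ^ 2) := by
        field_simp
        ring
      have e' : y * (((m.re - 0) * (m.re - 0) + (m.im - 1 / (2 * y)) * (m.im - 1 / (2 * y)))
          - (1 / (2 * y)) ^ 2) < 0 := mul_neg_of_pos_of_neg h0 (by linarith)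
      linarith
    have h4 : 0 < Complex.normSq m := by
      rw [Complex.normSq_pos]
      intro h5
      rw [h5] at h3
      simp at h3
    rw [Complex.add_im, one_div, Complex.inv_im, ← hy]
    rw [← Complex.normSq_apply] at h3
    have h5 : -m.im / Complex.normSq m < -y := by
      rw [div_lt_iff₀ h4]
      linarith
    linarith

/-- the compact region -/
def K (w θ : ℝ) : Set ℂ := Set.Icc (-(θ * w)) (θ * w) ×ℂ Set.Icc 0 2

lemma mem_K {w θ : ℝ} {ζ : ℂ} : ζ ∈ K w θ ↔ |ζ.re| ≤ θ * w ∧ 0 ≤ ζ.im ∧ ζ.im ≤ 2 := by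
  unfold K
  rw [Complex.mem_reProdIm, Set.mem_Icc, Set.mem_Icc, abs_le]

lemma K_compact (w θ : ℝ) : IsCompact (K w θ) := isCompact_Icc.reProdIm isCompact_Icc

lemma K_convex (w θ : ℝ) : Convex ℝ (K w θ) := by
  have e : K w θ = (Complex.reLm ⁻¹' Set.Icc (-(θ * w)) (θ * w)) ∩
      (Complex.imLm ⁻¹' Set.Icc (0 : ℝ) 2) := rfl
  rw [e]
  exact ((convex_Icc _ _).linear_preimage _).inter ((convex_Icc _ _).linear_preimage _)

theorem main : S_HU := by
  intro w θ hw hθ0 hθ
  have hre : ∀ ζ ∈ K w θ, |ζ.re| < w := by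
    intro ζ h
    have := (mem_K.1 h).1
    nlinarith
  have h0K : (0 : ℂ) ∈ K w θ := by
    rw [mem_K]
    simp
    positivity
  have hcont : ContinuousOn (H w) (K w θ) := fun ζ hζ =>
    (H_deriv hw (hre ζ hζ)).continuousAt.continuousWithinAt
  have hne : ∀ ζ ∈ K w θ, H w ζ ≠ 0 := by
    intro ζ h h2
    have h1 := H_im hw (hre ζ h)
    rw [h2] at h1
    simp at h1
  obtain ⟨C1, hC1⟩ := (K_compact w θ).exists_bound_of_continuousOn hcont
  obtain ⟨z2, hz2, m2⟩ := (K_compact w θ).exists_isMinOn ⟨0, h0K⟩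
    (Complex.continuous_im.comp_continuousOn hcont)
  obtain ⟨z3, hz3, m3⟩ := (K_compact w θ).exists_isMaxOn ⟨0, h0K⟩
    (Complex.continuous_im.comp_continuousOn ((continuousOn_const.div hcont hne).add
      (continuousOn_id (s := K w θ))) : ContinuousOn (fun ζ => (1 / H w ζ + ζ).im) (K w θ))
  have p2 : 0 < (H w z2).im := H_im hw (hre z2 hz2)
  have p3 : (1 / H w z3 + z3).im < 0 := by
    rcases (mem_K.1 hz3).2.1.eq_or_lt with h | h
    · exact neg_real hw (hre z3 hz3) h.symm
    · rw [← hu_eq hw h]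
      exact neg_pos hw h
  refine ⟨max 1 (max C1 (1 / ((1 - θ) * w) ^ 2)), min (H w z2).im (-(1 / H w z3 + z3).im),
    le_max_left _ _, lt_min p2 (by linarith), ?_, ?_⟩
  · intro ζ h1 h2 h3
    have hK : ζ ∈ K w θ := mem_K.2 ⟨h1, h2.le, h3⟩
    rw [hu_eq hw h2]
    refine ⟨(hC1 ζ hK).trans ((le_max_left _ _).trans (le_max_right _ _)),
      (min_le_left _ _).trans (m2 hK), ?_⟩
    have h4 : (1 / H w ζ + ζ).im ≤ (1 / H w z3 + z3).im := m3 hK
    have h5 := min_le_right (H w z2).im (-(1 / H w z3 + z3).im)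
    linarith
  · intro ζ ζ' h1 h2 h3 h1' h2' h3'
    have hK : ζ ∈ K w θ := mem_K.2 ⟨h1, h2.le, h3⟩
    have hK' : ζ' ∈ K w θ := mem_K.2 ⟨h1', h2'.le, h3'⟩
    rw [hu_eq hw h2, hu_eq hw h2']
    have hpos : 0 < (1 - θ) * w := mul_pos (by linarith) hw
    have h4 := (K_convex w θ).norm_image_sub_le_of_norm_hasDerivWithin_le (f := H w)
      (f' := fun z => -1 / ((w - z) * (w + z))) (C := 1 / ((1 - θ) * w) ^ 2)
      (fun z hz => (H_deriv hw (hre z hz)).hasDerivWithinAt) ?_ hK' hK
    · refine h4.trans ?_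
      exact mul_le_mul_of_nonneg_right ((le_max_right _ _).trans (le_max_right _ _))
        (norm_nonneg _)
    · intro z hz
      have hz' := abs_le.1 (mem_K.1 hz).1
      have a1 : (1 - θ) * w ≤ ‖(w : ℂ) - z‖ := by
        refine le_trans ?_ (Complex.abs_re_le_norm _)
        simp
        refine le_trans ?_ (le_abs_self _)
        linarith
      have a2 : (1 - θ) * w ≤ ‖(w : ℂ) + z‖ := by
        refine le_trans ?_ (Complex.abs_re_le_norm _)
        simp
        refine le_trans ?_ (le_abs_self _)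
        linarith
      rw [norm_div, norm_neg, norm_one, norm_mul]
      apply one_div_le_one_div_of_le (by positivity)
      rw [sq]
      exact mul_le_mul a1 a2 hpos.le (norm_nonneg _)

end

end Pool.Agent.N527.SD.HU
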